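import Pool.Agent.H43.TL2.M37
import Pool.Agent.H43.TL2.M50
import Pool.Agent.H43.TL2.M51
import Pool.Agent.H43.TL2.M70
import Pool.Agent.H43.TL2.M91

/-!
# MQL SDS: the package of a chart, at a special direction (from the package of the transform) and at another direction (root densities)
-/

set_option autoImplicit false

open Topology Filter Metric MeasureTheory Asymptotics Laplacian

noncomputable section

namespace Pool.Agent.MQL

open Pool.Agent.H36.BP (EN)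
open Pool.Agent.H30M (tau LogSing)
open Pool.Agent.MQ Pool.Agent.MQ2

variable {e ι m : ℕ} {t : ℂ} {v w : ℂ × ℂ → ℂ × ℂ} {g g' : ℂ × ℂ → ℂ}

/-- a smaller radius -/
theorem omt_ball {Om : Set ℂ} {p : ℂ → ℂ × ℂ} {ρ ρ' : ℝ} (h : ρ ≤ ρ') : {z | z ∈ Omt Om p t ρ' ∧ pt t p z ∈ ball (0 : ℂ × ℂ) ρ} = Omt Om p t ρ := by
  ext z
  constructor
  · rintro ⟨h1, h2⟩
    rw [mem_ball_zero_iff, Prod.norm_def, max_lt_iff] at h2
    exact ⟨h1.1, h1.2.1, h2.1, h2.2⟩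
  · rintro ⟨h1, h2, h3, h4⟩
    refine ⟨⟨h1, h2, h3.trans_le h, h4.trans_le h⟩, ?_⟩
    rw [mem_ball_zero_iff, Prod.norm_def]
    exact max_lt h3 h4

theorem dirD_sing {P : (ℂ × ℂ → ℂ) → Prop} {al be : ℝ} (hal : -1 < al) (hbe : -1 < be) (hv : Iso v)
    (hw : Child e ι t v w) (hg : Wt v g) (hg' : AnalyticAt ℂ g' 0)
    (hm : ∀ᶠ p in 𝓝 (0 : ℂ × ℂ), g (MQ2.be t p) = p.1 ^ m * g' p) (hP : P g) {r re : ℝ} (hr : 0 < r) (hre : 0 < re)
    (hgr : ∀ (Om : Set ℂ) (p : ℂ → ℂ × ℂ), Crv1 v r Om p → (∀ z ∈ Om, ∃ᶠ w in 𝓝 z, g (p w) ≠ 0) → ∀ z ∈ Om, v (p z) ≠ 0 → g (p z) ≠ 0)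
    (hwt : Wt w (gt ι g')) (hAw : AxW (1 + al + be) (if t = 0 then be else 0) w (gt ι g'))
    {k : ℕ} {c : Fin k → ℕ → ℂ → ℂ × ℂ} (hG : ∀ g : ℂ × ℂ → ℂ, TG ι t P g → Wt w g → AxW (1 + al + be) (if t = 0 then be else 0) w g →
      ∀ᶠ r in 𝓝[>] (0 : ℝ), ∀ s s', 0 < s → s < s' → s' < r → ∀ B, 0 ≤ B → ∃ A C₀ : ℝ, 0 ≤ A ∧ 0 ≤ C₀ ∧
      ∀ (d n : ℕ) (q : ℂ × ℂ → ℂ) (ψ : ℂ × ℂ → ℝ), 1 ≤ d → 1 ≤ n → AnalyticAt ℂ q 0 → ContDiffAt ℝ 1 ψ 0 →
        (∀ i, FZero (c i) g ∨ HasOrd (c i) q n) →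
        ∀ (M : ℕ) (F : ℂ → EN M) (Q : ℂ → ℂ) (lm : ℂ → ℝ) (Om : Set ℂ) (p : ℂ → ℂ × ℂ), Dat w g r B d q ψ F Q lm Om p →
          Avoid (1 + al + be) (if t = 0 then be else 0) Om p →
          LocX w g (JD (1 + al + be) (if t = 0 then be else 0)) {z | z ∈ Om ∧ p z ∈ ball (0 : ℂ × ℂ) s'} p lm s A (C₀ * d / n)) :
    ∀ᶠ ρ' in 𝓝[>] (0 : ℝ), ∀ σ ρ, 0 < σ → σ < ρ → ρ < ρ' → ∀ B, 0 ≤ B → ∃ A C₀ : ℝ, 0 ≤ A ∧ 0 ≤ C₀ ∧
      DirD al be v g ((e : ℝ) + 1 + ι - m) r (fun n q => ∀ i, FZero (c i) (gt ι g') ∨ HasOrd (c i) (fun x => q (MQ2.be t x)) n) re B A C₀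
        (fun Om p => Omt Om p t ρ) (Kt t ρ σ) := by
  have hTP : TG ι t P (gt ι g') := ⟨g, m, g', hP, hg.an, hg', hm, Eventually.of_forall fun _ => rfl⟩
  obtain ⟨K, hK1, hK⟩ := jd_child al be t
  filter_upwards [rel_child (J := fun _ => 1) hv hw hg analyticAt_const hg' hm, dat_child (J := fun _ => 1) hv hw hg analyticAt_const hg' hm,
    hG _ hTP hwt hAw, ev_small t hr, ev_small t hre, DD_bound hw.an hw.iso hwt, self_mem_nhdsWithin, hK] with ρ' h1 h2 h3 h4 h5 h6 h7 hKρ σ ρ hσ hσρ hρρ' B hB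
  have hρ' : 0 < ρ' := h7
  have hρ : 0 < ρ := hσ.trans hσρ
  set B' : ℝ := B + (1 + (‖t‖ + ρ') ^ 2) with hB'
  have hB'0 : 0 ≤ B' := by positivity
  obtain ⟨A, C₀, hA, hC₀, h8⟩ := h3 σ ρ hσ hσρ hρρ' B' hB'0
  refine ⟨A, C₀, hA, hC₀, ?_⟩
  intro d n q ψ hd hn hq hψ hCon M F Q lm Om p hDat hAv ell hell l₁ hl₁ hle hEn _
  have hgne := hgr Om p hDat.crv hDat.g_ne
  obtain ⟨hcw, hrel⟩ := h1 r Om p hDat.crv hDat.p_ne hDat.g_ne hgne h4.1 h4.2
  have hdat := h2 r B re h4.1 h4.2 h5.1 h5.2 hB d q ψ M F Q lm l₁ Om p hDat hgne hl₁ hle hEn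
  have hAv' := avoid_child (t := t) (ρ := ρ') hal hbe hDat.crv.an hAv
  have h8' := h8 d n _ _ hd hn (an_comp_be hq t) (cd_comp_be hψ t) hCon M F Q l₁ _ _ hdat hAv'
  rw [omt_ball hρρ'.le] at h8'
  obtain ⟨C, l, η, Φ, err, hC, hlc, hll, hlE, hη, herr, hΦ, hout, hin, hineq, hup, hint⟩ := h8'
  obtain ⟨C2, hC2, h9⟩ := h6 σ (Or.inl hσ)
  have h9' := h9 _ _ hcw hdat.g_ne
  have hl₁0 : ∀ z, 0 ≤ l₁ z := fun z => (hDat.lm_nonneg z).trans (hle z)
  have hl0 : ∀ z, 0 ≤ l z := fun z => (hl₁0 z).trans (hll z)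
  have hus := us_child (t := t) (ρ := ρ') hDat.crv hdat.lm_ge
  have hsub : ∀ z, z ∈ Omt Om p t ρ → z ∈ Omt Om p t ρ' := fun z hz => ⟨hz.1, hz.2.1, hz.2.2.1.trans hρρ', hz.2.2.2.trans hρρ'⟩
  have hO : IsOpen (Omt Om p t ρ) := isOpen_iff_mem_nhds.2 fun z hz => Omt_ev hDat.crv.isOpen (hDat.crv.an z hz.1) hz
  set N : ℝ := (e : ℝ) + 1 + ι - m with hN
  have hlog : 0 ≤ Real.log (1 + (‖t‖ + ρ') ^ 2) := Real.log_nonneg (by nlinarith [sq_nonneg (‖t‖ + ρ')])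
  have hlK : 0 ≤ Real.log K := Real.log_nonneg hK1
  set Cf : ℝ := C + C2 * B' + B' + |N| * Real.log (1 + (‖t‖ + ρ') ^ 2) + Real.log K with hCf
  have hN0 : 0 ≤ |N| * Real.log (1 + (‖t‖ + ρ') ^ 2) := mul_nonneg (abs_nonneg _) hlog
  have hCB : 0 ≤ C2 * B' := mul_nonneg hC2.le hB'0
  have hCf1 : C ≤ Cf := by rw [hCf]; linarith
  have hCf2 : C2 * B' ≤ Cf := by rw [hCf]; linarith
  have hCf3 : B' ≤ Cf := by rw [hCf]; linarith
  have hCf4 : |N| * Real.log (1 + (‖t‖ + ρ') ^ 2) ≤ Cf := by rw [hCf]; linarith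
  have hCf5 : C + Real.log K ≤ Cf := by rw [hCf]; linarith
  have hCf0 : 0 ≤ Cf := hC.trans hCf1
  refine ⟨Cf, l, η, DDv w (gt ι g') (pt t p), fun z => (p z).1, Φ, err, us p, hCf0, hlc, hll, fun R hR => (hlE R hR).trans (by linarith), ?_, ?_⟩
  · refine {
      op := hO
      cl := ?_
      η_cd := fun z hz => hη.contDiffAt (hO.mem_nhds hz)
      err_c := fun z hz => (herr z hz).continuousAt (hO.mem_nhds hz)
      Φ_ls := hΦ
      out := fun z hz hK => hout z hz fun hb => hK ⟨hz, ball_subset_closedBall hb⟩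
      bd := ?_
      ineq := hineq
      X_an := fun z hz => an_fst (hDat.crv.an z hz.1)
      X_ne := fun z hz => ?_
      X_V := fun z hz hV => (rel_jd (hrel z (hsub z hz)).2.2.2.2.2.2.2 hV).1
      D_eq := ?_
      ell_eq := ?_
      u_cd := fun z hz => (hus z (hsub z hz)).1
      u_gr := fun z hz => ?_
      u_bd := fun z hz => ?_
      up := ?_ }
    · have a1 := hcw.closed σ (hσρ.trans hρρ')
      have a2 : Kt t ρ σ Om p = {z | z ∈ Omt Om p t ρ' ∧ pt t p z ∈ closedBall (0 : ℂ × ℂ) σ} := by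
        ext z
        refine ⟨fun h => ⟨hsub z h.1, h.2⟩, fun h => ⟨?_, h.2⟩⟩
        have b1 : pt t p z ∈ ball (0 : ℂ × ℂ) ρ := closedBall_subset_ball hσρ h.2
        have b2 : z ∈ {z | z ∈ Omt Om p t ρ' ∧ pt t p z ∈ ball (0 : ℂ × ℂ) ρ} := ⟨h.1, b1⟩
        rwa [omt_ball hρρ'.le] at b2
      rw [a2]
      exact a1
    · intro z hz
      by_cases hb : pt t p z ∈ ball (0 : ℂ × ℂ) σ
      · exact (hin z hz hb).trans (mul_le_mul_of_nonneg_right hCf1 (hl0 z))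
      · rw [(hout z hz hb).1, RCLike.norm_conj]
        refine ((h9' z (hsub z hz) hb).2).trans ?_
        have a1 : C2 * ‖deriv (pt t p) z‖ ≤ C2 * (B' * l₁ z) := mul_le_mul_of_nonneg_left (hdat.lm_ge z (hsub z hz)) hC2.le
        have a2 : C2 * (B' * l₁ z) ≤ C2 * B' * l z := by
          rw [← mul_assoc]
          exact mul_le_mul_of_nonneg_left (hll z) hCB
        exact a1.trans (a2.trans (mul_le_mul_of_nonneg_right hCf2 (hl0 z)))
    · exact (frequently_of_punctured (hrel z (hsub z hz)).2.1)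
    · intro z hz hX
      rw [(hrel z (hsub z hz)).2.2.2.2.2.2.1 hX, hN]
      push_cast
      ring
    · intro z hz hX
      have h10 := (hus z (hsub z hz)).2.2.2.2 hX
      rw [← h10]
      refine hell z hz.1 (fun h => hX (by rw [h]; rfl)) ?_
      exact mem_ball_re (hrel z (hsub z hz)).1 (hsub z hz) h5.1 h5.2
    · have a1 := (hus z (hsub z hz)).2.1
      have a2 : B' * l₁ z ≤ Cf * l z := mul_le_mul hCf3 (hll z) (hl₁0 z) hCf0
      exact a1.trans a2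
    · have a1 := (hus z (hsub z hz)).2.2.1
      have a2 := (hus z (hsub z hz)).2.2.2.1
      calc N * us p z ≤ |N| * us p z := mul_le_mul_of_nonneg_right (le_abs_self N) a1
        _ ≤ |N| * Real.log (1 + (‖t‖ + ρ') ^ 2) := mul_le_mul_of_nonneg_left a2 (abs_nonneg _)
        _ ≤ Cf := hCf4
    · intro z hz hV hΦz
      obtain ⟨b1, b2, b3, b4, b5⟩ := rel_jd (hrel z (hsub z hz)).2.2.2.2.2.2.2 hV
      have hb : p z = ((p z).1, (p z).1 * MQ2.slope p z) := Prod.ext rfl ((hz.2.1.eq (hDat.crv.an z hz.1)).self_of_nhds)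
      have c1 := hKρ (p z).1 (MQ2.slope p z) b1 (hsub z hz).2.2.2
      rw [← hb] at c1
      have c2 : 0 < ‖(p z).1‖ * ‖JD al be (p z)‖ := mul_pos (norm_pos_iff.2 b1) (norm_pos_iff.2 b4)
      have hK0 : 0 < K := lt_of_lt_of_le one_pos hK1
      have c3 : JD (1 + al + be) (if t = 0 then be else 0) (pt t p z) ≠ 0 := by
        intro h
        have h' : JD (1 + al + be) (if t = 0 then be else 0) ((p z).1, MQ2.slope p z - t) = 0 := h
        rw [h', norm_zero, mul_zero] at c1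
        linarith
      have b6 := hup z hz hΦz b2 b3 c3
      have c4 : Real.log (‖(p z).1‖ * ‖JD al be (p z)‖) ≤ Real.log K + Real.log ‖JD (1 + al + be) (if t = 0 then be else 0) (pt t p z)‖ := by
        rw [← Real.log_mul hK0.ne' (norm_ne_zero_iff.2 c3)]
        exact Real.log_le_log c2 c1
      rw [b5]
      linarith
  · intro R hR
    refine (hint R hR).trans ?_
    have a1 : 0 ≤ ∫ z, ‖gr (tau R) z‖ * l z := integral_nonneg fun z => mul_nonneg (norm_nonneg _) (hl0 z)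
    have a2 : C * (∫ z, ‖gr (tau R) z‖ * l z) ≤ Cf * ∫ z, ‖gr (tau R) z‖ * l z := mul_le_mul_of_nonneg_right hCf1 a1
    linarith

private theorem SDS_log {a M l : ℝ} (ha : 0 < a) (hM : 0 ≤ M) (hl : 0 ≤ l) (h : a ≤ M * l) : Real.log a ≤ Real.log (1 + M) + Real.log (1 + l) := by
  rw [← Real.log_mul (by positivity) (by positivity)]
  refine Real.log_le_log ha (h.trans ?_)
  nlinarith

theorem dirD_reg {al be : ℝ} (hal : -1 < al) (hbe : -1 < be) (ht : t ≠ 0) (hv : Iso v)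
    (hw : Child e ι t v w) (hg : Wt v g) (hg' : AnalyticAt ℂ g' 0)
    (hm : ∀ᶠ p in 𝓝 (0 : ℂ × ℂ), g (MQ2.be t p) = p.1 ^ m * g' p) {r re : ℝ} (hr : 0 < r) (hre : 0 < re)
    (hgr : ∀ (Om : Set ℂ) (p : ℂ → ℂ × ℂ), Crv1 v r Om p → (∀ z ∈ Om, ∃ᶠ w in 𝓝 z, g (p w) ≠ 0) → ∀ z ∈ Om, v (p z) ≠ 0 → g (p z) ≠ 0)
    (hwt : Wt w (gt ι g')) (hw0 : w 0 ≠ 0) (htan : ι = 0 → (w 0).1 ≠ 0) :
    ∀ᶠ ρ in 𝓝[>] (0 : ℝ), ∀ B, 0 ≤ B → ∃ A : ℝ, 0 ≤ A ∧ ∀ Con,
      DirD al be v g ((e : ℝ) + 1 + ι - m) r Con re B A 0 (fun Om p => Omt Om p t ρ) fun _ _ => ∅ := by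
  have hwne : ∀ᶠ ρ in 𝓝[>] (0 : ℝ), ∀ q ∈ ball (0 : ℂ × ℂ) ρ, w q ≠ 0 := by
    obtain ⟨ε, hε, h2⟩ := Metric.eventually_nhds_iff_ball.1 (hw.an.continuousAt.eventually_ne hw0)
    filter_upwards [mem_nhdsWithin_of_mem_nhds (Iio_mem_nhds hε)] with ρ hρ q hq
    exact h2 q (ball_subset_ball (Set.mem_Iio.1 hρ).le hq)
  have hcof := DD_cof hw.an hw.iso hwt
  obtain ⟨K, hK1, hK⟩ := jd_child al be t
  have hkap : -1 < 1 + al + be := by linarith
  obtain ⟨E, hE0, hE⟩ := ax_bound hkap (v := w) (g := gt ι g') (q₀ := 0) rfl hw.an hw0 hwt.an (by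
    rcases hw.inv with ⟨h1, -⟩ | ⟨h1, -⟩
    · refine Or.inr (Or.inr ⟨g', hg', Eventually.of_forall fun q => ?_⟩)
      unfold gt
      rw [h1, pow_one]
    · exact Or.inr (Or.inl (htan h1)))
  have hEρ : ∀ᶠ ρ in 𝓝[>] (0 : ℝ), ∀ q ∈ ball (0 : ℂ × ℂ) ρ, (1 + al + be < 0 → q.1 ≠ 0) →
      ‖gt ι g' q‖ * ‖q.1‖ ^ (1 + al + be) ≤ E * (‖w q‖ + if 1 + al + be < 0 then ‖(w q).1‖ * ‖q.1‖ ^ (1 + al + be) else 0) := by
    obtain ⟨ε, hε, h2⟩ := Metric.eventually_nhds_iff_ball.1 hE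
    filter_upwards [mem_nhdsWithin_of_mem_nhds (Iio_mem_nhds hε)] with ρ hρ q hq
    exact h2 q (ball_subset_ball (Set.mem_Iio.1 hρ).le hq)
  filter_upwards [rel_child (J := fun _ => 1) hv hw hg analyticAt_const hg' hm, dat_child (J := fun _ => 1) hv hw hg analyticAt_const hg' hm,
    hcof, ev_small t hr, ev_small t hre, DD_bound hw.an hw.iso hwt, self_mem_nhdsWithin, hwne, hK, hEρ,
    mem_nhdsWithin_of_mem_nhds (Iio_mem_nhds one_pos)] with ρ h1 h2 h3 h4 h5 h6 h7 hwn hKρ hEb hρ1 B hB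
  have hρ : 0 < ρ := h7
  have hρ1' : ρ < 1 := hρ1
  set B' : ℝ := B + (1 + (‖t‖ + ρ) ^ 2) with hB'
  have hB'0 : 0 ≤ B' := by positivity
  refine ⟨1, zero_le_one, ?_⟩
  intro Con d n q ψ hd hn hq hψ hCon M F Q lm Om p hDat hAv ell hell l₁ hl₁ hle hEn hRt
  have hgne := hgr Om p hDat.crv hDat.g_ne
  obtain ⟨hcw, hrel⟩ := h1 r Om p hDat.crv hDat.p_ne hDat.g_ne hgne h4.1 h4.2
  have hdat := h2 r B re h4.1 h4.2 h5.1 h5.2 hB d q ψ M F Q lm l₁ Om p hDat hgne hl₁ hle hEn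
  obtain ⟨C2, hC2, h9⟩ := h6 0 (Or.inr hw0)
  have h9' := fun z hz => h9 _ _ hcw hdat.g_ne z hz (by rw [ball_zero]; exact Set.notMem_empty _)
  obtain ⟨hh, hhan, h10⟩ := h3
  have h10' := fun z hz => h10 _ _ hcw hdat.g_ne z hz (hwn _ (hcw.mem z hz))
  have hl₁0 : ∀ z, 0 ≤ l₁ z := fun z => (hDat.lm_nonneg z).trans (hle z)
  have hus := us_child (t := t) (ρ := ρ) hDat.crv hdat.lm_ge
  have hO : IsOpen (Omt Om p t ρ) := hcw.isOpen
  have hDan : ∀ z ∈ Omt Om p t ρ, AnalyticAt ℂ (DDv w (gt ι g') (pt t p)) z := fun z hz => by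
    obtain ⟨-, a1, a2⟩ := h10' z hz
    have a3 : AnalyticAt ℂ (fun x => hh (pt t p x) * ztv w (pt t p) x) z :=
      (AnalyticAt.comp (g := hh) (f := pt t p) (hhan _ (ball_subset_closedBall (hcw.mem z hz))) (hcw.an z hz)).mul a1
    exact a3.congr (a2.mono fun x hx => hx.symm)
  set N : ℝ := (e : ℝ) + 1 + ι - m with hN
  have hlog : 0 ≤ Real.log (1 + (‖t‖ + ρ) ^ 2) := Real.log_nonneg (by nlinarith [sq_nonneg (‖t‖ + ρ)])
  have hCB : 0 ≤ C2 * B' := mul_nonneg hC2.le hB'0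
  have hK0 : 0 < K := lt_of_lt_of_le one_pos hK1
  set M₀ : ℝ := K * E * (B' + 1) with hM₀
  have hM₀0 : 0 ≤ M₀ := by positivity
  have hlogK : 0 ≤ Real.log (1 + M₀) := Real.log_nonneg (by linarith)
  have hN0 : 0 ≤ |N| * Real.log (1 + (‖t‖ + ρ) ^ 2) := mul_nonneg (abs_nonneg _) hlog
  set Cf : ℝ := C2 * B' + B' + |N| * Real.log (1 + (‖t‖ + ρ) ^ 2) + Real.log (1 + M₀) with hCf
  have hCf2 : C2 * B' ≤ Cf := by rw [hCf]; linarith
  have hCf3 : B' ≤ Cf := by rw [hCf]; linarith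
  have hCf4 : |N| * Real.log (1 + (‖t‖ + ρ) ^ 2) ≤ Cf := by rw [hCf]; linarith
  have hCf5 : Real.log (1 + M₀) ≤ Cf := by rw [hCf]; linarith
  have hCf0 : 0 ≤ Cf := hCB.trans hCf2
  refine ⟨Cf, l₁, fun z => (starRingEnd ℂ) (DDv w (gt ι g') (pt t p) z), DDv w (gt ι g') (pt t p), fun z => (p z).1, fun _ => 0, fun _ => 0, us p, hCf0,
    hl₁, fun z => le_rfl, fun R hR => by linarith, ?_, ?_⟩
  · refine {
      op := hO
      cl := isClosed_empty
      η_cd := fun z hz => contDiffAt_conj_holo (hDan z hz)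
      err_c := fun z hz => continuousAt_const
      Φ_ls := fun z hz => ⟨0, LogSing.of_contDiffAt contDiffAt_const⟩
      out := fun z hz hK => ⟨rfl, rfl, rfl⟩
      bd := ?_
      ineq := ?_
      X_an := fun z hz => an_fst (hDat.crv.an z hz.1)
      X_ne := fun z hz => frequently_of_punctured (hrel z hz).2.1
      X_V := fun z hz hV => (rel_jd (hrel z hz).2.2.2.2.2.2.2 hV).1
      D_eq := ?_
      ell_eq := ?_
      u_cd := fun z hz => (hus z hz).1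
      u_gr := fun z hz => ?_
      u_bd := fun z hz => ?_
      up := ?_ }
    · intro z hz
      rw [RCLike.norm_conj]
      refine ((h9' z hz).2).trans ?_
      have a1 : C2 * ‖deriv (pt t p) z‖ ≤ C2 * (B' * l₁ z) := mul_le_mul_of_nonneg_left (hdat.lm_ge z hz) hC2.le
      rw [← mul_assoc] at a1
      exact a1.trans (mul_le_mul_of_nonneg_right hCf2 (hl₁0 z))
    · intro z hz _
      rw [dv_conj (hDan z hz).differentiableAt]
      have a1 : Δ (fun _ : ℂ => (0 : ℝ)) z = 0 := by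
        rw [← lp_eq_lap contDiffAt_const]
        have : gr (fun _ : ℂ => (0 : ℝ)) = fun _ => 0 := funext fun z => gr_const 0 z
        show dv (gr fun _ : ℂ => (0 : ℝ)) z = 0
        rw [this, dv_const]
      rw [a1]
      norm_num
    · intro z hz hX
      rw [(hrel z hz).2.2.2.2.2.2.1 hX, hN]
      push_cast
      ring
    · intro z hz hX
      have h10 := (hus z hz).2.2.2.2 hX
      rw [← h10]
      exact hell z hz.1 (fun h => hX (by rw [h]; rfl)) (mem_ball_re (hrel z hz).1 hz h5.1 h5.2)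
    · have a1 := (hus z hz).2.1
      exact a1.trans (mul_le_mul_of_nonneg_right hCf3 (hl₁0 z))
    · have a1 := (hus z hz).2.2.1
      have a2 := (hus z hz).2.2.2.1
      calc N * us p z ≤ |N| * us p z := mul_le_mul_of_nonneg_right (le_abs_self N) a1
        _ ≤ |N| * Real.log (1 + (‖t‖ + ρ) ^ 2) := mul_le_mul_of_nonneg_left a2 (abs_nonneg _)
        _ ≤ Cf := hCf4
    · intro z hz hV _
      obtain ⟨b1, b2, b3, b4, b5⟩ := rel_jd (hrel z hz).2.2.2.2.2.2.2 hV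
      rw [b5]
      have hb : p z = ((p z).1, (p z).1 * MQ2.slope p z) := Prod.ext rfl ((hz.2.1.eq (hDat.crv.an z hz.1)).self_of_nhds)
      have c1 := hKρ (p z).1 (MQ2.slope p z) b1 hz.2.2.2
      rw [← hb, if_neg ht] at c1
      have e0 : ‖JD (1 + al + be) 0 ((p z).1, MQ2.slope p z - t)‖ = ‖(p z).1‖ ^ (1 + al + be) := by
        unfold JD
        rw [Complex.norm_real, Real.norm_eq_abs, abs_of_nonneg (by positivity), Real.rpow_zero, mul_one]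
      rw [e0] at c1
      have hxp : (pt t p z).1 = (p z).1 := rfl
      have hx0 : 0 < ‖(p z).1‖ := norm_pos_iff.2 b1
      have c2 := hEb _ (hcw.mem z hz) fun _ => b1
      rw [hxp] at c2
      have hwz : w (pt t p z) ≠ 0 := hwn _ (hcw.mem z hz)
      have d1 := hcw.deriv_fst hz hwz
      have d2 := hcw.deriv_snd hz hwz
      have hX : 0 ≤ ‖(p z).1‖ ^ (1 + al + be) := Real.rpow_nonneg (norm_nonneg _) _
      -- `|ζ'| |w| ≤ B' l₁`
      have e1 : ‖ztv w (pt t p) z‖ * ‖w (pt t p z)‖ ≤ B' * l₁ z := by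
        refine le_trans (le_of_eq ?_) (hdat.lm_ge z hz)
        rw [Prod.norm_def, Prod.norm_def, d1, d2, norm_mul, norm_mul, mul_max_of_nonneg _ _ (norm_nonneg _)]
      -- the root density
      have e2 : ‖ztv w (pt t p) z‖ * (if 1 + al + be < 0 then ‖(w (pt t p z)).1‖ * ‖(p z).1‖ ^ (1 + al + be) else 0) ≤ l₁ z := by
        by_cases hk : 1 + al + be < 0
        · rw [if_pos hk]
          have hal0 : al < 0 := by linarith
          have f1 : (deriv (pt t p) z).1 = (deriv p z).1 := by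
            rw [← deriv_fst' (hcw.an z hz).differentiableAt, ← deriv_fst' (hDat.crv.an z hz.1).differentiableAt]
            rfl
          have f2 := (hRt z hz.1 (ball_subset_closedBall (mem_ball_re (hrel z hz).1 hz h5.1 h5.2))).1 hal0
          have f3 : ‖(p z).1‖ ^ (1 + al + be) ≤ ‖(p z).1‖ ^ al :=
            Real.rpow_le_rpow_of_exponent_ge hx0 (hz.2.2.1.le.trans hρ1'.le) (by linarith)
          rw [← mul_assoc, ← norm_mul, ← d1, f1]
          exact (mul_le_mul_of_nonneg_left f3 (norm_nonneg _)).trans f2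
        · rw [if_neg hk, mul_zero]
          exact hl₁0 z
      have e3 : ‖ztv w (pt t p) z‖ * ‖gt ι g' (pt t p z)‖ * (‖(p z).1‖ * ‖JD al be (p z)‖) ≤ M₀ * l₁ z := by
        have g1 : ‖ztv w (pt t p) z‖ * ‖gt ι g' (pt t p z)‖ * (‖(p z).1‖ * ‖JD al be (p z)‖) ≤
            ‖ztv w (pt t p) z‖ * ‖gt ι g' (pt t p z)‖ * (K * ‖(p z).1‖ ^ (1 + al + be)) := mul_le_mul_of_nonneg_left c1 (by positivity)
        have g2 : ‖ztv w (pt t p) z‖ * ‖gt ι g' (pt t p z)‖ * (K * ‖(p z).1‖ ^ (1 + al + be)) =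
            K * ‖ztv w (pt t p) z‖ * (‖gt ι g' (pt t p z)‖ * ‖(p z).1‖ ^ (1 + al + be)) := by ring
        have g3 := mul_le_mul_of_nonneg_left c2 (show 0 ≤ K * ‖ztv w (pt t p) z‖ by positivity)
        have g4 : K * E * (‖ztv w (pt t p) z‖ * ‖w (pt t p z)‖ +
            ‖ztv w (pt t p) z‖ * (if 1 + al + be < 0 then ‖(w (pt t p z)).1‖ * ‖(p z).1‖ ^ (1 + al + be) else 0)) ≤ K * E * (B' * l₁ z + l₁ z) :=
          mul_le_mul_of_nonneg_left (add_le_add e1 e2) (by positivity)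
        have g5 : K * E * (B' * l₁ z + l₁ z) = M₀ * l₁ z := by
          rw [hM₀]
          ring
        rw [g2] at g1
        refine g1.trans (g3.trans (le_trans (le_of_eq ?_) (g4.trans g5.le)))
        ring
      have g6 : 0 < ‖ztv w (pt t p) z‖ := norm_pos_iff.2 b2
      have g7 : 0 < ‖gt ι g' (pt t p z)‖ := norm_pos_iff.2 b3
      have g8 : 0 < ‖(p z).1‖ * ‖JD al be (p z)‖ := mul_pos hx0 (norm_pos_iff.2 b4)
      have g9 := SDS_log (mul_pos (mul_pos g6 g7) g8) hM₀0 (hl₁0 z) e3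
      rw [Real.log_mul (mul_pos g6 g7).ne' g8.ne', Real.log_mul g6.ne' g7.ne'] at g9
      linarith
  · intro R hR
    have a1 : 0 ≤ ∫ z, ‖gr (tau R) z‖ * l₁ z := integral_nonneg fun z => mul_nonneg (norm_nonneg _) (hl₁0 z)
    have a2 := mul_nonneg hCf0 a1
    simp only [mul_zero, integral_zero, zero_mul, zero_div, zero_add]
    linarith

end Pool.Agent.MQL
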