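import Pool.Agent.H43.TL2.M74

/-!
# MQL OkE: the cone over the open surface is an open part; the curves of the theorem lie in it
-/

set_option autoImplicit false

open Topology Filter Metric MvPolynomial

noncomputable section

namespace Pool.Agent.MQL

open Pool.Agent.H36.BP (EN)
open Pool.Agent.H36.BPL (OpenPart)
open Pool.Agent.H17EF (coneE)
open Pool.Agent.H17BP (Surface)
open Pool.Agent.MQ3

variable {M : ℕ} {P : Ideal (MvPolynomial (Fin (M + 1)) ℂ)} {RD H₀ Ra : MvPolynomial (Fin (M + 1)) ℂ} {m : ℕ} {θ : WDiff (coneE P) m}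

theorem eval_analytic (Q : MvPolynomial (Fin (M + 1)) ℂ) (x : EN M) : AnalyticAt ℂ (fun y : EN M => eval y.ofLp Q) x := by
  have h1 : ∀ i : Fin (M + 1), AnalyticAt ℂ (fun y : EN M => y.ofLp i) x := fun i => (EuclideanSpace.proj i : EN M →L[ℂ] ℂ).analyticAt x
  induction Q using MvPolynomial.induction_on with
  | C a => simpa using analyticAt_const
  | add p q hp hq =>
    simp only [map_add]
    exact hp.fun_add hq
  | mul_X p i hp =>
    simp only [map_mul, eval_X]
    exact hp.fun_mul (h1 i)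

theorem eval_smul_okE {e : ℕ} (h : H₀.IsHomogeneous e) (c : ℂ) (x : EN M) : eval (c • x).ofLp H₀ = c ^ e * eval x.ofLp H₀ := by
  have := Pool.Agent.H17EF.eval_smul_form h c x.ofLp
  exact this

theorem okE_open (hX : Surface (coneE P)) (h : ∃ e, H₀.IsHomogeneous e) : OpenPart (coneE P) (okE P H₀) where
  sub := fun x hx => hx.1
  smul := by
    intro x hx c hc
    obtain ⟨e, he⟩ := h
    refine ⟨hX.smul x hx.1 c hc, ?_⟩
    rw [eval_smul_okE he]
    exact mul_ne_zero (pow_ne_zero _ hc) hx.2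
  eqn := fun x _ => ⟨fun y => eval y.ofLp H₀, eval_analytic H₀ x, Eventually.of_forall fun y hy => ⟨fun h1 => by
    by_contra h2
    exact h1 ⟨hy, h2⟩, fun h1 h2 => h2.2 h1⟩⟩

end Pool.Agent.MQL
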